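import Pool.Agent.Run7.h104.AC.Defs

set_option autoImplicit false

namespace Pool.Agent.Run7.h633.AC.Fub

open MeasureTheory Complex Set Filter Topology Metric
open Pool.Agent.Run7.h104.AC

noncomputable section

theorem Rw_nonneg (z : ℂ) : 0 ≤ Rw z := by
  unfold Rw; positivity

theorem measurable_Rw : Measurable Rw := by
  unfold Rw
  fun_prop

theorem isOpen_Ann (δ : ℝ) : IsOpen (Ann δ) := by
  have h : Ann δ = {z : ℂ | δ < ‖z‖} ∩ {z | ‖z‖ < 1} := by
    ext z; simp [Ann]
  rw [h]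
  exact (isOpen_lt continuous_const continuous_norm).inter
    (isOpen_lt continuous_norm continuous_const)

theorem Rw_le {δ : ℝ} (hδ : 0 < δ) {z : ℂ} (hz : z ∈ Ann δ) : Rw z ≤ 4 / δ ^ 3 := by
  obtain ⟨h2, h1⟩ := hz
  have h3 : ‖1 + z‖ ≤ 2 := by
    calc ‖1 + z‖ ≤ ‖(1 : ℂ)‖ + ‖z‖ := norm_add_le _ _
      _ ≤ 2 := by rw [norm_one]; linarith
  unfold Rw
  apply div_le_div₀ (by norm_num) (by nlinarith [norm_nonneg (1 + z)]) (by positivity)
  exact pow_le_pow_left₀ hδ.le h2.le 3

theorem circleInt (w : ℂ) : CircleIntegrable (fun ζ => Real.log ‖w - Cd ζ‖) 0 1 := by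
  apply MeromorphicOn.circleIntegrable_log_norm
  have : Differentiable ℂ (fun ζ : ℂ => w - Cd ζ) := by
    unfold Cd
    fun_prop
  exact fun z _ => (this.analyticAt z).meromorphicAt

theorem continuous_Cd : Continuous Cd := by
  unfold Cd; fun_prop

theorem Cd_le {ζ : ℂ} (h : ‖ζ‖ = 1) : ‖Cd ζ‖ ≤ 3 / 2 := by
  unfold Cd
  calc ‖ζ + ζ ^ 2 / 2‖ ≤ ‖ζ‖ + ‖ζ ^ 2 / 2‖ := norm_add_le _ _
    _ = 3 / 2 := by
      rw [norm_div, norm_pow, h]
      norm_num

/-- the measure on the circle -/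
def nu : Measure ℝ := volume.restrict (Ioc 0 (2 * Real.pi))

instance : IsFiniteMeasure nu := by
  unfold nu; infer_instance

theorem nu_integral (f : ℝ → ℝ) : ∫ θ, f θ ∂nu = ∫ θ in (0 : ℝ)..2 * Real.pi, f θ := by
  rw [intervalIntegral.integral_of_le (by positivity)]
  rfl

theorem nu_integrable (f : ℝ → ℝ) :
    Integrable f nu ↔ IntervalIntegrable f volume 0 (2 * Real.pi) := by
  rw [intervalIntegrable_iff_integrableOn_Ioc_of_le (by positivity)]
  rfl

theorem U_eq (w : ℂ) :
    ∫ θ, Real.log ‖w - Cd (circleMap 0 1 θ)‖ ∂nu = 2 * Real.pi * U w := by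
  rw [nu_integral]
  unfold U Real.circleAverage
  rw [smul_eq_mul]
  field_simp

theorem absbound {w : ℂ} {M : ℝ} (hM : 0 ≤ M) (hw : ‖w‖ ≤ M) (hU : -Real.log 2 ≤ U w) :
    ∫ θ, |Real.log ‖w - Cd (circleMap 0 1 θ)‖| ∂nu
      ≤ 2 * Real.pi * (2 * Real.log (M + 2) + Real.log 2) := by
  have hint : Integrable (fun θ => Real.log ‖w - Cd (circleMap 0 1 θ)‖) nu :=
    (nu_integrable _).2 (circleInt w)
  have hL : 0 ≤ Real.log (M + 2) := Real.log_nonneg (by linarith)
  have h1 : ∫ θ, |Real.log ‖w - Cd (circleMap 0 1 θ)‖| ∂nu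
      ≤ ∫ θ, (2 * Real.log (M + 2) - Real.log ‖w - Cd (circleMap 0 1 θ)‖) ∂nu := by
    apply integral_mono hint.abs ((integrable_const _).sub hint)
    intro θ
    show |Real.log ‖w - Cd (circleMap 0 1 θ)‖|
      ≤ 2 * Real.log (M + 2) - Real.log ‖w - Cd (circleMap 0 1 θ)‖
    have hle : Real.log ‖w - Cd (circleMap 0 1 θ)‖ ≤ Real.log (M + 2) := by
      rcases eq_or_lt_of_le (norm_nonneg (w - Cd (circleMap 0 1 θ))) with h0 | h0
      · rw [← h0, Real.log_zero]; exact hL
      · apply Real.log_le_log h0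
        have h2 : ‖Cd (circleMap 0 1 θ)‖ ≤ 3 / 2 := Cd_le (by simp)
        have h3 := norm_sub_le w (Cd (circleMap 0 1 θ))
        linarith
    rw [abs_le]
    constructor <;> linarith
  rw [integral_sub (integrable_const _) hint, U_eq] at h1
  have h4 : ∫ _ : ℝ, 2 * Real.log (M + 2) ∂nu = 2 * Real.pi * (2 * Real.log (M + 2)) := by
    rw [nu_integral, intervalIntegral.integral_const, sub_zero, smul_eq_mul]
  rw [h4] at h1
  have : 2 * Real.pi * (-Real.log 2) ≤ 2 * Real.pi * U w :=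
    mul_le_mul_of_nonneg_left hU (by positivity)
  linarith

theorem t_FUB (_hUF : S_UF) (hRHO : S_RHO) : S_FUB := by
  intro R0 β F hU δ hδ hδ1
  have hUlow : ∀ w, -Real.log 2 ≤ U w := fun w => (hRHO.2.2.2.2.2.2 w).1
  have hsub : closedBall (0 : ℂ) 1 ⊆ ball 0 R0 := closedBall_subset_ball hU.hR
  have hAsub : Ann δ ⊆ closedBall (0 : ℂ) 1 := by
    intro z hz
    rw [mem_closedBall_zero_iff]
    exact hz.2.le
  have hFc : ContinuousOn F (closedBall (0 : ℂ) 1) := hU.hF.continuousOn.mono hsub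
  obtain ⟨M0, hM0⟩ := (isCompact_closedBall (0 : ℂ) 1).exists_bound_of_continuousOn hFc
  set M : ℝ := max M0 0 with hMdef
  have hM : ∀ z ∈ Ann δ, ‖F z‖ ≤ M := fun z hz => (hM0 z (hAsub hz)).trans (le_max_left _ _)
  have hMn : 0 ≤ M := le_max_right _ _
  have hAm : MeasurableSet (Ann δ) := (isOpen_Ann δ).measurableSet
  have hAfin : volume (Ann δ) < ⊤ :=
    (measure_mono hAsub).trans_lt (isCompact_closedBall (0 : ℂ) 1).measure_lt_top
  set μ : Measure ℂ := volume.restrict (Ann δ) with hμ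
  have : IsFiniteMeasure μ := ⟨by rw [hμ, Measure.restrict_apply_univ]; exact hAfin⟩
  set g : ℂ → ℝ → ℝ := fun z θ => Rw z * Real.log ‖F z - Cd (circleMap 0 1 θ)‖ with hg
  have hFm : AEStronglyMeasurable F μ :=
    (hFc.mono hAsub).aestronglyMeasurable hAm
  have hgm : AEStronglyMeasurable (Function.uncurry g) (μ.prod nu) := by
    have a1 : AEMeasurable (fun p : ℂ × ℝ => F p.1) (μ.prod nu) := hFm.comp_fst.aemeasurable
    have a2 : Measurable (fun p : ℂ × ℝ => Cd (circleMap 0 1 p.2)) :=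
      (continuous_Cd.comp ((continuous_circleMap 0 1).comp continuous_snd)).measurable
    have a3 : Measurable (fun p : ℂ × ℝ => Rw p.1) := measurable_Rw.comp measurable_fst
    have a4 : AEMeasurable (fun p : ℂ × ℝ => Real.log ‖F p.1 - Cd (circleMap 0 1 p.2)‖)
        (μ.prod nu) := Real.measurable_log.comp_aemeasurable (a1.sub a2.aemeasurable).norm
    exact (a3.aemeasurable.mul a4).aestronglyMeasurable
  have hgint : Integrable (Function.uncurry g) (μ.prod nu) := by
    rw [integrable_prod_iff hgm]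
    constructor
    · refine Eventually.of_forall fun z => ?_
      have h0 : Integrable (fun θ => Real.log ‖F z - Cd (circleMap 0 1 θ)‖) nu :=
        (nu_integrable _).2 (circleInt (F z))
      exact h0.const_mul (Rw z)
    · refine Integrable.of_bound hgm.norm.integral_prod_right'
        (4 / δ ^ 3 * (2 * Real.pi * (2 * Real.log (M + 2) + Real.log 2))) ?_
      refine (ae_restrict_mem hAm).mono ?_
      intro z hz
      have e1 : ∫ θ, ‖Function.uncurry g (z, θ)‖ ∂nu
          = Rw z * ∫ θ, |Real.log ‖F z - Cd (circleMap 0 1 θ)‖| ∂nu := by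
        rw [← integral_const_mul]
        apply integral_congr_ae
        refine Eventually.of_forall fun θ => ?_
        show ‖Rw z * Real.log ‖F z - Cd (circleMap 0 1 θ)‖‖ = _
        rw [norm_mul, Real.norm_of_nonneg (Rw_nonneg z), Real.norm_eq_abs]
      rw [e1, Real.norm_of_nonneg (mul_nonneg (Rw_nonneg z)
        (integral_nonneg fun θ => abs_nonneg _))]
      have hb := absbound hMn (hM z hz) (hUlow (F z))
      exact mul_le_mul (Rw_le hδ hz) hb (integral_nonneg fun θ => abs_nonneg _) (by positivity)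
  have hz_eq : ∀ z, ∫ θ, g z θ ∂nu = 2 * Real.pi * (Rw z * U (F z)) := by
    intro z
    show ∫ θ, Rw z * Real.log ‖F z - Cd (circleMap 0 1 θ)‖ ∂nu = _
    rw [integral_const_mul, U_eq]
    ring
  have hpi : (0 : ℝ) < 2 * Real.pi := by positivity
  refine ⟨?_, ?_, ?_⟩
  · have h1 : Integrable (fun z => ∫ θ, g z θ ∂nu) μ := hgint.integral_prod_left
    simp only [hz_eq] at h1
    have h2 := h1.const_mul (2 * Real.pi)⁻¹
    refine h2.congr (Eventually.of_forall fun z => ?_)
    show (2 * Real.pi)⁻¹ * (2 * Real.pi * (Rw z * U (F z))) = Rw z * U (F z)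
    rw [← mul_assoc, inv_mul_cancel₀ hpi.ne', one_mul]
  · have h1 : Integrable (fun θ => ∫ z, g z θ ∂μ) nu := hgint.integral_prod_right
    exact (nu_integrable _).1 h1
  · have h1 := integral_integral_swap hgint
    simp only [hz_eq] at h1
    rw [integral_const_mul, nu_integral] at h1
    unfold Real.circleAverage
    rw [smul_eq_mul, ← h1, ← mul_assoc, inv_mul_cancel₀ hpi.ne', one_mul]

end

end Pool.Agent.Run7.h633.AC.Fub
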