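import Pool.Agent.Run7.h104.AC.Defs
import Pool.Agent.Helper202.Univ

set_option autoImplicit false

namespace Pool.Agent.Run7.h633.AC

open MeasureTheory Complex Set Filter Topology Metric
open Pool.Agent.Run7.h104.AC

noncomputable section

theorem Rw_nonneg (z : ℂ) : 0 ≤ Rw z := by
  unfold Rw; positivity

theorem measurable_Rw : Measurable Rw := by
  unfold Rw
  fun_prop

theorem rw_exp_sig {R0 β : ℝ} {F : ℂ → ℂ} (h : Uni R0 β F) {z : ℂ} (hz0 : z ≠ 0) (hz1 : ‖z‖ < 1) :
    ‖deriv F z‖ ^ 2 * rho (F z) = β⁻¹ * (Rw z * Real.exp (sig β F z)) := by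
  have hzb : z ∈ ball (0 : ℂ) R0 := by
    rw [mem_ball_zero_iff]; linarith [h.hR]
  have h0b : (0 : ℂ) ∈ ball (0 : ℂ) R0 := by
    rw [mem_ball_zero_iff, norm_zero]; linarith [h.hR]
  have hd : deriv F z ≠ 0 :=
    Pool.Agent.Helper202.Univ.deriv_ne_zero isOpen_ball h.hF h.inj hzb
  have hF : F z ≠ 0 := by
    intro h1
    exact hz0 (h.inj hzb h0b (by rw [h1, h.F0]))
  have h1z : 1 + z ≠ 0 := by
    intro h1
    have : z = -1 := by linear_combination h1
    rw [this] at hz1
    simp at hz1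
  have a1 : 0 < ‖deriv F z‖ := norm_pos_iff.2 hd
  have a2 : 0 < ‖F z‖ := norm_pos_iff.2 hF
  have a3 : 0 < ‖z‖ := norm_pos_iff.2 hz0
  have a4 : 0 < ‖1 + z‖ := norm_pos_iff.2 h1z
  have hβ := h.hβ
  have e1 : Real.exp (sig β F z) = ‖deriv F z‖ ^ 2 * (‖F z‖ ^ 3)⁻¹ * ‖z‖ ^ 3 * β * (‖1 + z‖ ^ 2)⁻¹
      * Real.exp (3 * U (F z)) := by
    unfold sig har
    rw [Real.exp_add, Real.exp_sub, Real.exp_add, Real.exp_add, Real.exp_sub, Real.exp_log hβ]
    have p2 : ∀ x : ℝ, 0 < x → Real.exp (2 * Real.log x) = x ^ 2 := by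
      intro x hx
      rw [show (2 : ℝ) * Real.log x = ((2 : ℕ) : ℝ) * Real.log x by norm_num, Real.exp_nat_mul,
        Real.exp_log hx]
    have p3 : ∀ x : ℝ, 0 < x → Real.exp (3 * Real.log x) = x ^ 3 := by
      intro x hx
      rw [show (3 : ℝ) * Real.log x = ((3 : ℕ) : ℝ) * Real.log x by norm_num, Real.exp_nat_mul,
        Real.exp_log hx]
    rw [p2 _ a1, p3 _ a2, p3 _ a3, p2 _ a4]
    field_simp
  have e2 : rho (F z) = Real.exp (3 * U (F z)) * (‖F z‖ ^ 3)⁻¹ := by
    unfold rho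
    have p3 : ∀ x : ℝ, 0 < x → Real.exp (3 * Real.log x) = x ^ 3 := by
      intro x hx
      rw [show (3 : ℝ) * Real.log x = ((3 : ℕ) : ℝ) * Real.log x by norm_num, Real.exp_nat_mul,
        Real.exp_log hx]
    rw [mul_sub, Real.exp_sub, p3 _ a2]
    rfl
  rw [e1, e2]
  unfold Rw
  field_simp

theorem ofReal_integral_le {α : Type*} [MeasurableSpace α] {μ : Measure α} {h g : α → ℝ}
    (hh : Integrable h μ) (hle : ∀ x, h x ≤ g x) :
    ENNReal.ofReal (∫ x, h x ∂μ) ≤ ∫⁻ x, ENNReal.ofReal (g x) ∂μ := by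
  have hp : Integrable (fun x => max (h x) 0) μ := hh.pos_part
  calc ENNReal.ofReal (∫ x, h x ∂μ) ≤ ENNReal.ofReal (∫ x, max (h x) 0 ∂μ) := by
        apply ENNReal.ofReal_le_ofReal
        exact integral_mono hh hp (fun x => le_max_left _ _)
    _ = ∫⁻ x, ENNReal.ofReal (max (h x) 0) ∂μ :=
        ofReal_integral_eq_lintegral_ofReal hp (Eventually.of_forall fun x => le_max_right _ _)
    _ ≤ ∫⁻ x, ENNReal.ofReal (g x) ∂μ := by
        apply lintegral_mono
        intro x
        show ENNReal.ofReal (max (h x) 0) ≤ ENNReal.ofReal (g x)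
        rw [ENNReal.ofReal_max, ENNReal.ofReal_zero, max_eq_left zero_le]
        exact ENNReal.ofReal_le_ofReal (hle x)

theorem Rw_integrableOn {E : Set ℂ} {c : ℝ} (hc : 0 < c) (hE : MeasurableSet E)
    (hED : E ⊆ ball 0 1) (hEc : ∀ z ∈ E, c ≤ ‖z‖) : IntegrableOn Rw E := by
  refine IntegrableOn.of_bound ((measure_mono hED).trans_lt measure_ball_lt_top)
    measurable_Rw.aestronglyMeasurable (4 / c ^ 3) ?_
  refine (ae_restrict_mem hE).mono ?_
  intro z hz
  rw [Real.norm_of_nonneg (Rw_nonneg z)]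
  have h1 : ‖z‖ < 1 := by simpa using hED hz
  have h2 := hEc z hz
  have h3 : ‖1 + z‖ ≤ 2 := by
    calc ‖1 + z‖ ≤ ‖(1 : ℂ)‖ + ‖z‖ := norm_add_le _ _
      _ ≤ 2 := by rw [norm_one]; linarith
  unfold Rw
  apply div_le_div₀ (by norm_num) (by nlinarith [norm_nonneg (1 + z)]) (by positivity)
  exact pow_le_pow_left₀ hc.le h2 3

theorem t_LOWR (hCV : S_CV) (_hRHO : S_RHO) (hKOE : S_KOE) (hNB : S_NB) (hSIG : S_SIG) :
    S_LOWR := by
  intro R0 β F hU ε hε
  obtain ⟨C, η0, hC, hη0, hN⟩ := hNB R0 β F hU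
  obtain ⟨hI, hI0⟩ := hSIG R0 β F hU
  have hβ := hU.hβ
  have hvol : Tendsto ((volume.restrict (ball (0 : ℂ) 1)) ∘ (fun η => Nset F η)) (𝓝[>] (0 : ℝ))
      (𝓝 0) := by
    have h1 : Tendsto (fun η : ℝ => volume (ball (0 : ℂ) (C * η))) (𝓝[>] 0) (𝓝 0) := by
      simp only [Complex.volume_ball]
      have h2 : Tendsto (fun η : ℝ => ENNReal.ofReal (C * η) ^ 2 * (NNReal.pi : ENNReal)) (𝓝 0)
          (𝓝 (ENNReal.ofReal (C * 0) ^ 2 * NNReal.pi)) := by
        apply ENNReal.Tendsto.mul_const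
        · apply ENNReal.Tendsto.pow
          apply ENNReal.tendsto_ofReal
          exact (continuous_const.mul continuous_id).tendsto 0
        · right; exact ENNReal.coe_ne_top
      simp only [mul_zero, ENNReal.ofReal_zero, ne_eq, OfNat.ofNat_ne_zero, not_false_eq_true,
        zero_pow, zero_mul] at h2
      exact h2.mono_left nhdsWithin_le_nhds
    refine tendsto_of_tendsto_of_tendsto_of_le_of_le' tendsto_const_nhds h1 ?_ ?_
    · exact Eventually.of_forall fun _ => zero_le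
    · filter_upwards [Ioo_mem_nhdsGT hη0] with η hη
      exact (Measure.restrict_apply_le _ _).trans (measure_mono (hN η hη.1 hη.2).2.2.2.1)
  have hlim := Integrable.tendsto_setIntegral_nhds_zero hI hvol
  have hlim2 := (Metric.tendsto_nhds.1 hlim) (β * ε / 2) (by positivity)
  have hpos : 0 < ε / (4 * Real.pi * β * C) := by positivity
  filter_upwards [hlim2, Ioo_mem_nhdsGT hη0, Ioo_mem_nhdsGT hpos] with η h1 h2 h3
  obtain ⟨hNsub, hNm, ⟨c, hc, hcN⟩, hNC, hNK⟩ := hN η h2.1 h2.2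
  have hη := h2.1
  set lam : ℝ := η / β + C * η ^ 3 with hlam
  have hlam0 : 0 < lam := by positivity
  set E : Set ℂ := ball 0 1 \ Nset F η with hEdef
  have hEm : MeasurableSet E := measurableSet_ball.diff hNm
  have hED : E ⊆ ball 0 1 := sdiff_subset
  have hER : E ⊆ ball 0 R0 := hED.trans (ball_subset_ball hU.hR.le)
  have hND : Nset F η ⊆ ball 0 1 := fun z hz => hz.1
  have hEc : ∀ z ∈ E, c ≤ ‖z‖ := by
    intro z hz
    by_contra hcon
    push Not at hcon
    exact hz.2 (hcN (by simpa using hcon))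
  have hRwE : IntegrableOn Rw E := Rw_integrableOn hc hEm hED hEc
  have hRsE : IntegrableOn (fun z => Rw z * sig β F z) E := hI.mono_set hED
  obtain ⟨_, hform⟩ := hCV (ball 0 R0) F isOpen_ball hU.hF hU.inj E hER hEm
  rw [hform]
  have hcongr : ∫⁻ z in E, ENNReal.ofReal (‖deriv F z‖ ^ 2) * ENNReal.ofReal (rho (F z))
      = ∫⁻ z in E, ENNReal.ofReal (β⁻¹ * (Rw z * Real.exp (sig β F z))) := by
    apply setLIntegral_congr_fun hEm
    intro z hz
    show ENNReal.ofReal (‖deriv F z‖ ^ 2) * ENNReal.ofReal (rho (F z)) = _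
    rw [← ENNReal.ofReal_mul (by positivity), rw_exp_sig hU]
    · have := hEc z hz
      intro h0
      rw [h0, norm_zero] at this
      linarith
    · simpa using hED hz
  rw [hcongr]
  have hlow : ENNReal.ofReal (∫ z in E, β⁻¹ * (Rw z + Rw z * sig β F z))
      ≤ ∫⁻ z in E, ENNReal.ofReal (β⁻¹ * (Rw z * Real.exp (sig β F z))) := by
    apply ofReal_integral_le
    · exact (hRwE.add hRsE).const_mul _
    · intro z
      apply mul_le_mul_of_nonneg_left _ (by positivity)
      have h5 := Real.add_one_le_exp (sig β F z)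
      nlinarith [Rw_nonneg z]
  have hint : ∫ z in E, β⁻¹ * (Rw z + Rw z * sig β F z)
      = β⁻¹ * ((∫ z in E, Rw z) + ∫ z in E, Rw z * sig β F z) := by
    rw [integral_const_mul, integral_add hRwE hRsE]
  have hRwlow : 2 * Real.pi / lam ≤ ∫ z in E, Rw z := by
    have h6 : ENNReal.ofReal (2 * Real.pi / lam) ≤ ENNReal.ofReal (∫ z in E, Rw z) := by
      rw [← hKOE lam hlam0, ofReal_integral_eq_lintegral_ofReal hRwE
        (Eventually.of_forall fun z => Rw_nonneg z)]
      apply lintegral_mono_set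
      rintro z ⟨hz1, hz2⟩
      refine ⟨hz1, fun hz3 => ?_⟩
      have := hNK z hz3
      simp only [mem_ofPred_eq] at hz2
      linarith
    exact (ENNReal.ofReal_le_ofReal_iff (integral_nonneg fun z => Rw_nonneg z)).1 h6
  have hRslow : -(β * ε / 2) ≤ ∫ z in E, Rw z * sig β F z := by
    rw [hEdef, setIntegral_sdiff hNm hI hND]
    have h7 : ∫ x in Nset F η, (fun z => Rw z * sig β F z) x ∂(volume.restrict (ball (0 : ℂ) 1))
        = ∫ x in Nset F η, Rw x * sig β F x := by
      rw [Measure.restrict_restrict hNm, inter_eq_left.2 hND]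
    rw [h7, dist_zero_right, Real.norm_eq_abs] at h1
    have := (abs_lt.1 h1).2
    linarith
  have hfin : 2 * Real.pi / η ≤ (∫ z in E, β⁻¹ * (Rw z + Rw z * sig β F z)) + ε := by
    rw [hint]
    have h8 : β⁻¹ * (2 * Real.pi / lam - β * ε / 2)
        ≤ β⁻¹ * ((∫ z in E, Rw z) + ∫ z in E, Rw z * sig β F z) := by
      apply mul_le_mul_of_nonneg_left _ (by positivity)
      linarith
    have h9 : β⁻¹ * (2 * Real.pi / lam - β * ε / 2) = 2 * Real.pi / (η + β * C * η ^ 3) - ε / 2 := by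
      rw [hlam]
      field_simp
    have h10 : 2 * Real.pi / η - 2 * Real.pi / (η + β * C * η ^ 3) ≤ ε / 2 := by
      have h11 : 2 * Real.pi / η - 2 * Real.pi / (η + β * C * η ^ 3)
          = 2 * Real.pi * β * C * η / (1 + β * C * η ^ 2) := by
        field_simp
        ring
      rw [h11]
      have h12 : 2 * Real.pi * β * C * η / (1 + β * C * η ^ 2) ≤ 2 * Real.pi * β * C * η := by
        apply div_le_self (by positivity)
        have : 0 ≤ β * C * η ^ 2 := by positivity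
        linarith
      have h13 : η * (4 * Real.pi * β * C) < ε := by
        have := h3.2
        rwa [lt_div_iff₀ (by positivity)] at this
      linarith
    rw [h9] at h8
    linarith
  calc ENNReal.ofReal (2 * Real.pi / η)
      ≤ ENNReal.ofReal ((∫ z in E, β⁻¹ * (Rw z + Rw z * sig β F z)) + ε) :=
        ENNReal.ofReal_le_ofReal hfin
    _ ≤ ENNReal.ofReal (∫ z in E, β⁻¹ * (Rw z + Rw z * sig β F z)) + ENNReal.ofReal ε :=
        ENNReal.ofReal_add_le
    _ ≤ _ := by gcongr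

end

end Pool.Agent.Run7.h633.AC
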